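import Pool.Agent.N436.DF.Stm3

/-!
# Project DF, part 19: exactly two real boundary edges
-/

set_option autoImplicit false

namespace Pool.Agent.N447.DF

open Finset Pool.Agent.N436.DF

section tools

variable {V : Type} [DecidableEq V]

lemma one_le_sum2 {X C : Finset V} {F : V → V → ℤ} (h : ∀ x ∈ X, ∀ z ∈ C, 0 ≤ F x z) {a b : V}
    (ha : a ∈ X) (hb : b ∈ C) : F a b ≤ ∑ x ∈ X, ∑ z ∈ C, F x z := by
  rw [← Finset.sum_product']
  exact Finset.single_le_sum (f := fun p : V × V => F p.1 p.2)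
    (fun p hp => h _ (Finset.mem_product.mp hp).1 _ (Finset.mem_product.mp hp).2)
    (Finset.mem_product.mpr ⟨ha, hb⟩ : (a, b) ∈ X ×ˢ C)

lemma two_le_sum2 {X C : Finset V} {F : V → V → ℤ} (h : ∀ x ∈ X, ∀ z ∈ C, 0 ≤ F x z)
    {a b a' b' : V} (ha : a ∈ X) (hb : b ∈ C) (ha' : a' ∈ X) (hb' : b' ∈ C)
    (hne : (a, b) ≠ (a', b')) : F a b + F a' b' ≤ ∑ x ∈ X, ∑ z ∈ C, F x z := by
  rw [← Finset.sum_product']
  have h1 : ∑ p ∈ ({(a, b), (a', b')} : Finset (V × V)), F p.1 p.2 ≤
      ∑ p ∈ X ×ˢ C, F p.1 p.2 := by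
    apply Finset.sum_le_sum_of_subset_of_nonneg
    · intro p hp
      rcases Finset.mem_insert.mp hp with rfl | hp
      · exact Finset.mem_product.mpr ⟨ha, hb⟩
      · rw [Finset.mem_singleton.mp hp]
        exact Finset.mem_product.mpr ⟨ha', hb'⟩
    · intro p hp _
      exact h _ (Finset.mem_product.mp hp).1 _ (Finset.mem_product.mp hp).2
  rwa [Finset.sum_pair hne] at h1

lemma sv_nn {H : Hub V} (ok : Ok P13 H) {f : V → Bool} {s : V → V → ℤ} (hs : ∀ x z, 0 ≤ s x z)
    (x z : V) : 0 ≤ sv H f s x z := by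
  have hm := ok.m_nn x z
  have h2 : 0 ≤ min (H.m x z) (s x z) := le_min hm (hs x z)
  have hr : 0 ≤ H.r x z := by rcases ok.r01 x z with h | h <;> rw [h] <;> norm_num
  have h1 : 0 ≤ (if f x = true then 2 * H.m x z + 3 * min (H.m x z) (s x z)
      else 5 * min (H.m x z) (s x z)) := by
    split_ifs <;> linarith
  have h3 : 0 ≤ (if H.r x z ≤ s x z then (if f x = true then 7 else 9) * H.r x z
      else (if f x = true then 2 else 0)) := by
    split_ifs <;> first | linarith | norm_num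
  simp only [sv]
  linarith

end tools

/-- the setting -/
structure Set2 {V : Type} [DecidableEq V] (H : Hub V) (S X : Finset V) (v₁ v₂ w₁ w₂ : V) :
    Prop where
  top : Top8 H S X
  hv₁ : v₁ ∈ X
  hv₂ : v₂ ∈ X
  ne : v₁ ≠ v₂
  hw₁ : w₁ ∈ S \ X
  hw₂ : w₂ ∈ S \ X
  r₁ : H.r v₁ w₁ = 1
  r₂ : H.r v₂ w₂ = 1
  only : ∀ x ∈ X, ∀ z ∈ S \ X, H.r x z = 1 → (x = v₁ ∧ z = w₁) ∨ (x = v₂ ∧ z = w₂)

section setting

variable {V : Type} [DecidableEq V] {H : Hub V} {S X : Finset V} {v₁ v₂ w₁ w₂ : V}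

lemma Set2.swap (T : Set2 H S X v₁ v₂ w₁ w₂) : Set2 H S X v₂ v₁ w₂ w₁ :=
  ⟨T.top, T.hv₂, T.hv₁, T.ne.symm, T.hw₂, T.hw₁, T.r₂, T.r₁, fun x hx z hz h =>
    (T.only x hx z hz h).symm⟩

/-- the union is proper or everything -/
lemma Set2.sub (T : Set2 H S X v₁ v₂ w₁ w₂) {C : Finset V} (hC : C ⊆ S \ X) : X ∪ C ⊆ S :=
  Finset.union_subset T.top.sub (hC.trans Finset.sdiff_subset)

lemma Set2.nine (T : Set2 H S X v₁ v₂ w₁ w₂) {C : Finset V} (hC : C ⊆ S \ X) (hne : C.Nonempty)
    (hw : w₁ ∉ C) : 9 ≤ hp H (X ∪ C) := by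
  refine T.top.max _ ?_ (T.sub hC) ?_
  · rw [Finset.ssubset_iff_subset_ne]
    refine ⟨Finset.subset_union_left, fun h => ?_⟩
    obtain ⟨z, hz⟩ := hne
    have h1 := Finset.mem_sdiff.mp (hC hz)
    exact h1.2 (h ▸ Finset.mem_union_right _ hz)
  · refine ⟨v₁, Finset.mem_union_left _ T.hv₁, w₁, ?_, T.r₁⟩
    have h1 := Finset.mem_sdiff.mp T.hw₁
    rw [Finset.mem_sdiff, Finset.mem_union]
    exact ⟨h1.1, fun h => h.elim h1.2 hw⟩

/-- the kill argument -/
lemma Set2.kill (hb : S3_base) (hk : S3_kill) (T : Set2 H S X v₁ v₂ w₁ w₂) {f : V → Bool}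
    {p s : V → V → ℤ} (cf : ColBy H X f p) (hs : ∀ x z, 0 ≤ s x z)
    (hl : ∀ x ∈ X, load H X f p x + ∑ z ∈ S \ X, s x z ≤ H.c (f x) x) :
    ∃ C, C ⊆ S \ X ∧ w₁ ∈ C ∧ w₂ ∈ C ∧
      ((C = S \ X ∧ ∑ x ∈ X, ∑ z ∈ C, sv H f s x z ≤ 7) ∨
        ∑ x ∈ X, ∑ z ∈ C, sv H f s x z ≤ 2) := by
  obtain ⟨C, h1, h2, h3⟩ := hk V H S X f p s T.top.mc T.top.sub ⟨v₁, T.hv₁⟩ cf hs hl
  have hnn : 0 ≤ ∑ x ∈ X, ∑ z ∈ C, sv H f s x z :=
    Finset.sum_nonneg fun x _ => Finset.sum_nonneg fun z _ => sv_nn T.top.mc.ok hs x z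
  rw [T.top.h8] at h3
  have hw₁ : w₁ ∈ C := by
    by_contra hw
    have := T.nine h1 h2 hw
    linarith
  have hw₂ : w₂ ∈ C := by
    by_contra hw
    have := T.swap.nine h1 h2 hw
    linarith
  obtain ⟨_, _, _, _, b5⟩ := hb V H T.top.mc.ok
  obtain ⟨b6, b7⟩ := b5 S T.top.mc
  have hne : (X ∪ C).Nonempty := ⟨v₁, Finset.mem_union_left _ T.hv₁⟩
  refine ⟨C, h1, hw₁, hw₂, ?_⟩
  by_cases hC : C = S \ X
  · left
    refine ⟨hC, ?_⟩
    have := b6 _ (T.sub h1) hne
    linarith
  · right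
    have hXC : X ∪ C ≠ S := by
      intro h
      apply hC
      apply Finset.Subset.antisymm h1
      intro z hz
      have hz' := Finset.mem_sdiff.mp hz
      have : z ∈ X ∪ C := h ▸ hz'.1
      exact (Finset.mem_union.mp this).resolve_left hz'.2
    have := (b7 _ (T.sub h1) hne hXC).2
    linarith

/-- one unit of service at `v₁ w₁` -/
def s1 (v w : V) : V → V → ℤ := fun x z => if x = v ∧ z = w then 1 else 0

lemma s1_nn (v w : V) : ∀ x z, 0 ≤ s1 v w x z := fun x z => by
  simp only [s1]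
  split_ifs <;> norm_num

lemma sum_s1 {v w : V} {B : Finset V} (hw : w ∈ B) (x : V) :
    ∑ z ∈ B, s1 v w x z = if x = v then 1 else 0 := by
  by_cases hx : x = v
  · have : ∀ z, s1 v w x z = if z = w then 1 else 0 := fun z => by
      simp only [s1, hx, true_and]
    rw [Finset.sum_congr rfl (fun z _ => this z), Finset.sum_ite_eq', if_pos hw, if_pos hx]
  · have : ∀ z, s1 v w x z = 0 := fun z => by
      simp only [s1, hx, false_and, if_false]
    rw [Finset.sum_congr rfl (fun z _ => this z), Finset.sum_const_zero, if_neg hx]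

/-- (a) no spare unit in the colour 2 -/
lemma Set2.stepa (hb : S3_base) (hk : S3_kill) (T : Set2 H S X v₁ v₂ w₁ w₂) {f : V → Bool}
    {p : V → V → ℤ} (cf : ColBy H X f p) (hf : f v₁ = false)
    (hl : load H X f p v₁ + 1 ≤ H.c (f v₁) v₁) : False := by
  have ok := T.top.mc.ok
  obtain ⟨C, h1, h2, _, h4⟩ := T.kill hb hk (s := s1 v₁ w₁) cf (s1_nn _ _) (fun x hx => by
    rw [sum_s1 T.hw₁]
    split_ifs with h
    · rw [h]; exact hl
    · rw [add_zero]; exact cf.cap x hx)
  have h5 := one_le_sum2 (X := X) (C := C) (F := sv H f (s1 v₁ w₁))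
    (fun x _ z _ => sv_nn ok (s1_nn _ _) x z) T.hv₁ h2
  have h6 : 9 ≤ sv H f (s1 v₁ w₁) v₁ w₁ := by
    have e1 : s1 v₁ w₁ v₁ w₁ = 1 := by simp [s1]
    have hm := ok.m_nn v₁ w₁
    simp only [sv, e1, T.r₁, hf]
    have : 0 ≤ min (H.m v₁ w₁) 1 := le_min hm (by norm_num)
    simp
    linarith
  rcases h4 with ⟨_, h4⟩ | h4 <;> linarith

/-- (b) a spare unit in the colour 1 -/
lemma Set2.stepb (hb : S3_base) (hk : S3_kill) (T : Set2 H S X v₁ v₂ w₁ w₂) {f : V → Bool}
    {p : V → V → ℤ} (cf : ColBy H X f p) (hf : f v₁ = true)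
    (hl : load H X f p v₁ + 1 ≤ H.c (f v₁) v₁) :
    f v₂ = false ∧ ∀ x ∈ X, ∀ z ∈ S \ X, 1 ≤ H.m x z → f x = false := by
  have ok := T.top.mc.ok
  obtain ⟨C, h1, h2, h3, h4⟩ := T.kill hb hk (s := s1 v₁ w₁) cf (s1_nn _ _) (fun x hx => by
    rw [sum_s1 T.hw₁]
    split_ifs with h
    · rw [h]; exact hl
    · rw [add_zero]; exact cf.cap x hx)
  have nn : ∀ x ∈ X, ∀ z ∈ C, 0 ≤ sv H f (s1 v₁ w₁) x z :=
    fun x _ z _ => sv_nn ok (s1_nn _ _) x z
  have h5 := one_le_sum2 (X := X) (C := C) (F := sv H f (s1 v₁ w₁)) nn T.hv₁ h2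
  have e1 : s1 v₁ w₁ v₁ w₁ = 1 := by simp [s1]
  have hm := ok.m_nn v₁ w₁
  have h6 : 7 + 2 * H.m v₁ w₁ ≤ sv H f (s1 v₁ w₁) v₁ w₁ := by
    simp only [sv, e1, T.r₁, hf]
    have : 0 ≤ min (H.m v₁ w₁) 1 := le_min hm (by norm_num)
    simp
    linarith
  have hgen : ∀ x ∈ X, ∀ z ∈ C, (x, z) ≠ (v₁, w₁) → f x = true →
      2 * H.m x z + (if H.r x z = 1 then 2 else 0) ≤ sv H f (s1 v₁ w₁) x z := by
    intro x _ z _ hne hfx
    have e2 : s1 v₁ w₁ x z = 0 := by
      simp only [s1]
      rw [if_neg]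
      rintro ⟨rfl, rfl⟩
      exact hne rfl
    have hm' := ok.m_nn x z
    simp only [sv, e2, hfx]
    have : min (H.m x z) 0 = 0 := min_eq_right hm'
    rw [this]
    rcases ok.r01 x z with hr | hr
    · simp [hr]
    · simp [hr]
      linarith
  rcases h4 with ⟨hC, h4⟩ | h4
  · refine ⟨?_, ?_⟩
    · by_contra hf2
      rw [Bool.not_eq_false] at hf2
      have hne : (v₂, w₂) ≠ (v₁, w₁) := fun h => T.ne (congrArg Prod.fst h).symm
      have h7 := hgen v₂ T.hv₂ w₂ h3 hne hf2
      rw [if_pos T.r₂] at h7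
      have h8 := two_le_sum2 nn T.hv₁ h2 T.hv₂ h3 (fun h => hne h.symm)
      have := ok.m_nn v₂ w₂
      linarith
    · intro x hx z hz hmx
      by_contra hfx
      rw [Bool.not_eq_false] at hfx
      rw [← hC] at hz
      by_cases hne : (x, z) = (v₁, w₁)
      · have a1 : x = v₁ := congrArg Prod.fst hne
        have a2 : z = w₁ := congrArg Prod.snd hne
        rw [a1, a2] at hmx
        linarith
      · have h7 := hgen x hx z hz hne hfx
        have h8 := two_le_sum2 nn T.hv₁ h2 hx hz (fun h => hne h.symm)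
        have h9 : (0 : ℤ) ≤ (if H.r x z = 1 then 2 else 0) := by split_ifs <;> norm_num
        linarith
  · linarith

/-- states with reservations at `v₁`, `v₂` -/
lemma Set2.state (hb : S3_base) (hs : S3_state) (T : Set2 H S X v₁ v₂ w₁ w₂) (l : Bool → V → ℤ)
    (hl : ∀ i x, 0 ≤ l i x) (h0 : ∀ x, x ≠ v₁ → x ≠ v₂ → l true x = 0 ∧ l false x = 0)
    (h8 : ∀ C : Finset V, cost l C ≤ 10) :
    ∃ f p, ColBy H X f p ∧ ∀ x ∈ X, load H X f p x + l (f x) x ≤ H.c (f x) x := by
  obtain ⟨_, _, _, _, b5⟩ := hb V H T.top.mc.ok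
  obtain ⟨b6, b7⟩ := b5 S T.top.mc
  have hXS : X ≠ S := by
    intro h
    have := Finset.mem_sdiff.mp T.hw₁
    exact this.2 (h ▸ this.1)
  have key : ∀ v w : V, w ∈ S \ X → H.r v w = 1 → ∀ C, C ⊆ X → v ∈ C → 8 ≤ hp H C := by
    intro v w hw hr C hC hv
    refine T.top.rb8 C (hC.trans T.top.sub) ⟨v, hv, w, ?_, hr⟩
    have := Finset.mem_sdiff.mp hw
    exact Finset.mem_sdiff.mpr ⟨this.1, fun h => this.2 (hC h)⟩
  obtain ⟨f, p, h1, h2⟩ := hs V H S X l T.top.mc T.top.sub hXS hl (fun C hC hne => by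
    by_cases c1 : v₁ ∈ C
    · have := key v₁ w₁ T.hw₁ T.r₁ C hC c1
      linarith [h8 C]
    · by_cases c2 : v₂ ∈ C
      · have := key v₂ w₂ T.hw₂ T.r₂ C hC c2
        linarith [h8 C]
      · have e : cost l C = 0 := by
          apply Finset.sum_eq_zero
          intro z hz
          obtain ⟨e1, e2⟩ := h0 z (fun h => c1 (h ▸ hz)) (fun h => c2 (h ▸ hz))
          rw [e1, e2]; norm_num
        rw [e]
        have := b6 C (hC.trans T.top.sub) hne
        linarith)
  exact ⟨f, p, h1, fun x hx => (h2 x hx).1⟩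

/-- the state `γ₁`: `v₁` has the colour 1 and a spare unit -/
lemma Set2.gamma (hb : S3_base) (hs : S3_state) (hk : S3_kill) (T : Set2 H S X v₁ v₂ w₁ w₂) :
    ∃ f p, ColBy H X f p ∧ f v₁ = true ∧ load H X f p v₁ + 1 ≤ H.c (f v₁) v₁ ∧ f v₂ = false ∧
      ∀ x ∈ X, ∀ z ∈ S \ X, 1 ≤ H.m x z → f x = false := by
  set l : Bool → V → ℤ := fun _ x => if x = v₁ then 1 else 0 with hl
  obtain ⟨f, p, h1, h2⟩ := T.state hb hs l (fun i x => by
    simp only [hl]; split_ifs <;> norm_num) (fun x hx _ => by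
    simp [hl, hx]) (fun C => by
    have e : cost l C = ∑ z ∈ C, (if z = v₁ then 8 else 0) := by
      apply Finset.sum_congr rfl
      intro z _
      simp only [hl]
      split_ifs <;> norm_num
    rw [e, Finset.sum_ite_eq']
    split_ifs <;> norm_num)
  have h3 := h2 v₁ T.hv₁
  have e3 : l (f v₁) v₁ = 1 := by simp only [hl, if_pos]
  rw [e3] at h3
  have hf : f v₁ = true := by
    by_contra h
    rw [Bool.not_eq_true] at h
    exact T.stepa hb hk h1 h h3
  obtain ⟨h4, h5⟩ := T.stepb hb hk h1 hf h3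
  exact ⟨f, p, h1, hf, h3, h4, h5⟩

/-- the state `α`: both ends have the colour 1 -/
lemma Set2.alpha (hb : S3_base) (hs : S3_state) (hk : S3_kill) (T : Set2 H S X v₁ v₂ w₁ w₂) :
    ∃ f p, ColBy H X f p ∧ f v₁ = true ∧ f v₂ = true ∧ n1 H X (S \ X) f ≤ 1 := by
  have ok := T.top.mc.ok
  set l : Bool → V → ℤ := fun i x => if i = false ∧ (x = v₁ ∨ x = v₂) then 1 else 0 with hl
  obtain ⟨f, p, h1, h2⟩ := T.state hb hs l (fun i x => by
    simp only [hl]; split_ifs <;> norm_num) (fun x hx hx' => by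
    simp [hl, hx, hx']) (fun C => by
    have e : cost l C ≤ ∑ z ∈ C, ((if z = v₁ then 3 else 0) + (if z = v₂ then 3 else 0)) := by
      apply Finset.sum_le_sum
      intro z _
      simp only [hl]
      by_cases c1 : z = v₁ <;> by_cases c2 : z = v₂ <;> simp [c1, c2] <;>
        (try split_ifs) <;> norm_num
    refine e.trans ?_
    rw [Finset.sum_add_distrib, Finset.sum_ite_eq', Finset.sum_ite_eq']
    split_ifs <;> norm_num)
  have hf₁ : f v₁ = true := by
    by_contra h
    rw [Bool.not_eq_true] at h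
    have h3 := h2 v₁ T.hv₁
    have e3 : l (f v₁) v₁ = 1 := by simp [hl, h]
    rw [e3] at h3
    exact T.stepa hb hk h1 h h3
  have hf₂ : f v₂ = true := by
    by_contra h
    rw [Bool.not_eq_true] at h
    have h3 := h2 v₂ T.hv₂
    have e3 : l (f v₂) v₂ = 1 := by simp [hl, h]
    rw [e3] at h3
    exact T.swap.stepa hb hk h1 h h3
  refine ⟨f, p, h1, hf₁, hf₂, ?_⟩
  obtain ⟨C, c1, c2, c3, c4⟩ := T.kill hb hk (s := fun _ _ => 0) h1 (fun _ _ => le_rfl)
    (fun x hx => by
      rw [Finset.sum_const_zero, add_zero]; exact h1.cap x hx)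
  have esv : ∀ x z, sv H f (fun _ _ => 0) x z =
      (if f x = true then 2 * H.r x z else 0) + (if f x = true then 2 * H.m x z else 0) := by
    intro x z
    have : min (H.m x z) 0 = 0 := min_eq_right (ok.m_nn x z)
    simp only [sv, this]
    rcases ok.r01 x z with hr | hr
    · simp [hr]
    · simp [hr]
  have esum : ∑ x ∈ X, ∑ z ∈ C, sv H f (fun _ _ => 0) x z =
      ∑ x ∈ X, ∑ z ∈ C, (if f x = true then 2 * H.r x z else 0) + 2 * n1 H X C f := by
    have e1 : ∀ x ∈ X, ∑ z ∈ C, sv H f (fun _ _ => 0) x z =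
        ∑ z ∈ C, (if f x = true then 2 * H.r x z else 0) +
          (if f x = true then 2 * ∑ z ∈ C, H.m x z else 0) := by
      intro x _
      rw [Finset.sum_congr rfl (fun z _ => esv x z), Finset.sum_add_distrib]
      congr 1
      split_ifs
      · rw [Finset.mul_sum]
      · exact Finset.sum_const_zero
    rw [Finset.sum_congr rfl e1, Finset.sum_add_distrib]
    congr 1
    rw [n1, Finset.mul_sum, Finset.sum_filter]
  have hr : 4 ≤ ∑ x ∈ X, ∑ z ∈ C, (if f x = true then 2 * H.r x z else 0) := by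
    have h5 := two_le_sum2 (X := X) (C := C)
      (F := fun x z => if f x = true then 2 * H.r x z else 0) (fun x _ z _ => by
        have hr : 0 ≤ H.r x z := by rcases ok.r01 x z with h | h <;> rw [h] <;> norm_num
        show 0 ≤ (if f x = true then 2 * H.r x z else 0)
        split_ifs <;> linarith) T.hv₁ c2 T.hv₂ c3 (fun h => T.ne (congrArg Prod.fst h))
    simp only [hf₁, hf₂, if_true, T.r₁, T.r₂] at h5
    linarith
  have hn : 0 ≤ n1 H X C f := Finset.sum_nonneg fun x _ => Finset.sum_nonneg fun z _ => ok.m_nn x z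
  rw [esum] at c4
  rcases c4 with ⟨hC, c4⟩ | c4
  · rw [hC] at c4 hr
    omega
  · linarith

/-- gluing -/
lemma Set2.glue (hg : S3_glue) (T : Set2 H S X v₁ v₂ w₁ w₂) {f g : V → Bool} {p q : V → V → ℤ}
    (cf : ColBy H X f p) (cg : ColBy H (S \ X) g q) (e : ℤ) (he : 0 ≤ e)
    (hr : ∀ x ∈ X, ∀ z ∈ S \ X, f x = g z → H.r x z ≤ if x = v₁ ∧ z = w₁ then e else 0)
    (hX : load H X f p v₁ + e ≤ H.c (f v₁) v₁)
    (hB : ∀ z ∈ S \ X, load H (S \ X) g q z + (∑ x ∈ X, (if g z = f x then 0 else H.m x z) +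
      if z = w₁ then e else 0) ≤ H.c (g z) z) : False := by
  have ok := T.top.mc.ok
  obtain ⟨F, P', h, _⟩ := hg V H S X f g p q (fun x z => if x = v₁ ∧ z = w₁ then e else 0)
    (fun z x => (if g z = f x then 0 else H.m x z) + (if x = v₁ ∧ z = w₁ then e else 0)) ok
    T.top.sub cf cg (fun x z => by
      show 0 ≤ (if x = v₁ ∧ z = w₁ then e else 0)
      split_ifs <;> first | exact he | exact le_rfl) (fun z x => by
      have hm := ok.m_nn x z
      have h1 : 0 ≤ (if x = v₁ ∧ z = w₁ then e else 0) := by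
        split_ifs <;> first | exact he | exact le_rfl
      have h2 : 0 ≤ (if g z = f x then 0 else H.m x z) := by
        split_ifs <;> first | exact hm | exact le_rfl
      exact add_nonneg h2 h1) (fun x hx z hz hfg => by
      refine ⟨hr x hx z hz hfg, ?_⟩
      rw [if_pos hfg.symm, zero_add]
      exact hr x hx z hz hfg) (fun x hx z hz hfg => by
      have h1 : 0 ≤ (if x = v₁ ∧ z = w₁ then e else 0) := by
        split_ifs <;> first | exact he | exact le_rfl
      have e3 : (if g z = f x then (0 : ℤ) else H.m x z) = H.m x z :=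
        if_neg (fun h => hfg h.symm)
      rw [e3]
      linarith) (fun x hx => by
      have e1 : ∑ z ∈ S \ X, (if x = v₁ ∧ z = w₁ then e else 0) = if x = v₁ then e else 0 := by
        by_cases c : x = v₁
        · simp only [c, true_and, if_true]
          rw [Finset.sum_ite_eq', if_pos T.hw₁]
        · simp [c]
      rw [e1]
      split_ifs with c
      · rw [c]; exact hX
      · rw [add_zero]; exact cf.cap x hx) (fun z hz => by
      have e1 : ∑ x ∈ X, (if x = v₁ ∧ z = w₁ then e else 0) = if z = w₁ then e else 0 := by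
        by_cases c : z = w₁
        · simp only [c, and_true, if_true]
          rw [Finset.sum_ite_eq', if_pos T.hv₁]
        · simp [c]
      rw [Finset.sum_add_distrib, e1]
      exact hB z hz)
  exact T.top.mc.ncol ⟨F, P', h⟩

end setting

theorem m2 (hb : S3_base) (hs : S3_state) (hk : S3_kill) (hg : S3_glue) : S3_m2 := by
  intro V _ H S X v₁ v₂ w₁ w₂ top hv₁ hv₂ hne hw₁ hw₂ r₁ r₂ only
  have T : Set2 H S X v₁ v₂ w₁ w₂ := ⟨top, hv₁, hv₂, hne, hw₁, hw₂, r₁, r₂, only⟩
  have ok := top.mc.ok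
  obtain ⟨_, b2, _, _, b5⟩ := hb V H ok
  obtain ⟨b6, b7⟩ := b5 S top.mc
  obtain ⟨f₁, p₁, a1, a2, a3, a4, a5⟩ := T.gamma hb hs hk
  obtain ⟨f₂, p₂, c1, c2, c3, c4, c5⟩ := T.swap.gamma hb hs hk
  obtain ⟨f, p, d1, d2, d3, d4⟩ := T.alpha hb hs hk
  -- the colouring of the rest
  set l : Bool → V → ℤ := fun i z => if i = true then (∑ x ∈ X, H.m x z + if z = w₁ then 1 else 0)
    else ∑ x ∈ X with f x = true, H.m x z with hl
  have lt : ∀ z, l true z = ∑ x ∈ X, H.m x z + if z = w₁ then 1 else 0 := fun z => by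
    simp only [hl, if_true]
  have lf : ∀ z, l false z = ∑ x ∈ X with f x = true, H.m x z := fun z => by
    simp [hl]
  have hl0 : ∀ i z, 0 ≤ l i z := by
    intro i z
    cases i
    · rw [lf]; exact Finset.sum_nonneg fun x _ => ok.m_nn x z
    · rw [lt]
      have h1 : 0 ≤ ∑ x ∈ X, H.m x z := Finset.sum_nonneg fun x _ => ok.m_nn x z
      split_ifs <;> linarith
  have hBS : S \ X ≠ S := by
    intro h
    have := top.sub hv₁
    rw [← h] at this
    exact (Finset.mem_sdiff.mp this).2 hv₁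
  obtain ⟨g, q, g1, g2⟩ := hs V H S (S \ X) l top.mc Finset.sdiff_subset hBS hl0
    (fun C hC hCne => by
      have hdis : Disjoint X C := by
        rw [Finset.disjoint_left]
        intro z hz hz'
        exact (Finset.mem_sdiff.mp (hC hz')).2 hz
      have h1 := b2 X C hdis
      rw [top.h8] at h1
      have hcost : cost l C = 5 * mm H X C + 5 * (if w₁ ∈ C then 1 else 0) + 3 * n1 H X C f := by
        have e1 : ∀ z, 5 * l true z + 3 * l false z = 5 * ∑ x ∈ X, H.m x z +
            (if z = w₁ then 5 else 0) + 3 * ∑ x ∈ X with f x = true, H.m x z := fun z => by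
          rw [lt, lf]
          split_ifs <;> ring
        rw [cost, Finset.sum_congr rfl (fun z _ => e1 z), Finset.sum_add_distrib,
          Finset.sum_add_distrib, ← Finset.mul_sum, ← Finset.mul_sum, Finset.sum_ite_eq',
          Finset.sum_comm, mm, n1]
        congr 1
        · congr 1
          split_ifs <;> norm_num
        · rw [Finset.sum_comm]
      have hn : n1 H X C f ≤ 1 := by
        refine le_trans ?_ d4
        exact Finset.sum_le_sum fun x _ => Finset.sum_le_sum_of_subset_of_nonneg hC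
          (fun z _ _ => ok.m_nn x z)
      have rnn : ∀ x ∈ X, ∀ z ∈ C, 0 ≤ H.r x z := fun x _ z _ => by
        rcases ok.r01 x z with h | h <;> rw [h] <;> norm_num
      have hrr0 : 0 ≤ rr H X C := Finset.sum_nonneg fun x hx => Finset.sum_nonneg fun z hz =>
        rnn x hx z hz
      rw [hcost]
      by_cases k1 : w₁ ∈ C
      · rw [if_pos k1]
        by_cases k2 : w₂ ∈ C
        · have h2 := two_le_sum2 rnn hv₁ k1 hv₂ k2 (fun h => hne (congrArg Prod.fst h))
          rw [r₁, r₂] at h2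
          have h3 := b6 _ (T.sub hC) ⟨v₁, Finset.mem_union_left _ hv₁⟩
          have h4 : 2 ≤ rr H X C := by
            rw [rr]; linarith
          linarith
        · have h2 := one_le_sum2 rnn hv₁ k1
          rw [r₁] at h2
          have h3 := T.swap.nine hC hCne k2
          have h4 : 1 ≤ rr H X C := h2
          linarith
      · rw [if_neg k1]
        have h3 := T.nine hC hCne k1
        linarith)
  have rle : ∀ x z, H.r x z ≠ 1 → H.r x z = 0 := fun x z h => (ok.r01 x z).resolve_right h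
  -- no service of real edges
  have real0 : ∀ (f' : V → Bool), f' v₁ ≠ g w₁ → f' v₂ ≠ g w₂ → ∀ x ∈ X, ∀ z ∈ S \ X,
      f' x = g z → H.r x z ≤ 0 := by
    intro f' h1 h2 x hx z hz hfg
    by_contra hc
    have hr : H.r x z = 1 := by
      rcases ok.r01 x z with h | h
      · rw [h] at hc; exact absurd le_rfl hc
      · exact h
    rcases only x hx z hz hr with ⟨rfl, rfl⟩ | ⟨rfl, rfl⟩
    · exact h1 hfg
    · exact h2 hfg
  -- the pair units for the states `γ`
  have payγ : ∀ (f' : V → Bool), (∀ x ∈ X, ∀ z ∈ S \ X, 1 ≤ H.m x z → f' x = false) →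
      ∀ z ∈ S \ X, ∑ x ∈ X, (if g z = f' x then 0 else H.m x z) ≤
        (if g z = true then ∑ x ∈ X, H.m x z else 0) := by
    intro f' h z hz
    split_ifs with hgz
    · refine Finset.sum_le_sum fun x _ => ?_
      have := ok.m_nn x z
      split_ifs <;> linarith
    · rw [Bool.not_eq_true] at hgz
      refine (Finset.sum_eq_zero fun x hx => ?_).le
      rw [hgz]
      by_cases hm : 1 ≤ H.m x z
      · rw [h x hx z hz hm]; simp
      · have := ok.m_nn x z
        have : H.m x z = 0 := by omega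
        rw [this]; simp
  have capB : ∀ z ∈ S \ X, load H (S \ X) g q z + l (g z) z ≤ H.c (g z) z := fun z hz =>
    (g2 z hz).1
  have payl : ∀ z, (if g z = true then ∑ x ∈ X, H.m x z else 0) ≤ l (g z) z := by
    intro z
    cases hgz : g z
    · simpa using hl0 false z
    · rw [lt]
      simp only [if_true]
      split_ifs <;> linarith
  cases hg1 : g w₁ <;> cases hg2 : g w₂
  · -- both 2: state `α`
    refine T.glue hg d1 g1 0 le_rfl ?_ (by rw [add_zero]; exact d1.cap _ hv₁) ?_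
    · intro x hx z hz hfg
      have := real0 f (by rw [d2, hg1]; simp) (by rw [d3, hg2]; simp) x hx z hz hfg
      simpa using this
    · intro z hz
      refine le_trans ?_ (capB z hz)
      have h1 : ∑ x ∈ X, (if g z = f x then 0 else H.m x z) ≤ l (g z) z := by
        cases hgz : g z
        · rw [lf, Finset.sum_filter]
          refine Finset.sum_le_sum fun x _ => ?_
          cases f x <;> simp
        · rw [lt]
          have : ∑ x ∈ X, (if true = f x then 0 else H.m x z) ≤ ∑ x ∈ X, H.m x z :=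
            Finset.sum_le_sum fun x _ => by
              have := ok.m_nn x z
              split_ifs <;> linarith
          split_ifs <;> linarith
      simp only [ite_self, add_zero]
      linarith
  · -- `g w₁ = 2`, `g w₂ = 1`: state `γ₁`
    refine T.glue hg a1 g1 0 le_rfl ?_ (by rw [add_zero]; exact a1.cap _ hv₁) ?_
    · intro x hx z hz hfg
      have := real0 f₁ (by rw [a2, hg1]; simp) (by rw [a4, hg2]; simp) x hx z hz hfg
      simpa using this
    · intro z hz
      refine le_trans ?_ (capB z hz)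
      have h1 := (payγ f₁ a5 z hz).trans (payl z)
      simp only [ite_self, add_zero]
      linarith
  · -- `g w₁ = 1`, `g w₂ = 2`: state `γ₂`
    refine T.swap.glue hg c1 g1 0 le_rfl ?_ (by rw [add_zero]; exact c1.cap _ hv₂) ?_
    · intro x hx z hz hfg
      have := real0 f₂ (by rw [c4, hg1]; simp) (by rw [c2, hg2]; simp) x hx z hz hfg
      simpa using this
    · intro z hz
      refine le_trans ?_ (capB z hz)
      have h1 := (payγ f₂ c5 z hz).trans (payl z)
      simp only [ite_self, add_zero]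
      linarith
  · -- both 1: state `γ₁` with service
    refine T.glue hg a1 g1 1 zero_le_one ?_ a3 ?_
    · intro x hx z hz hfg
      by_cases hr : H.r x z = 1
      · rcases only x hx z hz hr with ⟨rfl, rfl⟩ | ⟨rfl, rfl⟩
        · simp [hr]
        · rw [a4, hg2] at hfg
          exact absurd hfg (by simp)
      · rw [rle x z hr]
        split_ifs <;> norm_num
    · intro z hz
      refine le_trans ?_ (capB z hz)
      have h1 := payγ f₁ a5 z hz
      by_cases hz1 : z = w₁
      · rw [if_pos hz1]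
        have hgz : g z = true := by rw [hz1, hg1]
        rw [if_pos hgz] at h1
        rw [hgz, lt, if_pos hz1]
        rw [hgz] at h1
        linarith
      · rw [if_neg hz1]
        have h2 := payl z
        linarith

end Pool.Agent.N447.DF
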